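import Pool.Agent.Helper33.HU.Goals

/-!
# Packet HU-PS: the sums of `H(x_k) y_k^s` vanish (helper15)
-/

set_option autoImplicit false

namespace Pool.Agent.Helper15.HU

open Finset Polynomial Pool.Agent.Helper33.HU

theorem sum_eval {n : ℕ} {D : Type} [CommRing D] (x : Fin n → D)
    (u : Fin n → D) (h : ∀ r : ℕ, ∑ k, x k ^ r * u k = 0) (q : Polynomial D) :
    ∑ k, q.eval (x k) * u k = 0 := by
  induction q using Polynomial.induction_on' with
  | add p q hp hq =>
    simp only [eval_add, add_mul, sum_add_distrib, hp, hq, add_zero]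
  | monomial r c =>
    have := h r
    calc ∑ k, (monomial r c).eval (x k) * u k = ∑ k, c * (x k ^ r * u k) := by
          refine sum_congr rfl fun k _ => ?_
          rw [eval_monomial]; ring
      _ = c * ∑ k, x k ^ r * u k := by rw [mul_sum]
      _ = 0 := by rw [this, mul_zero]

theorem gPS : G_PS := by
  intro n D _ x y hI T
  have hev : ∀ k, (∏ t ∈ T, (x k - x t)) = (∏ t ∈ T, (X - C (x t)) : Polynomial D).eval (x k) := by
    intro k
    rw [eval_prod]
    refine prod_congr rfl fun t _ => ?_
    rw [eval_sub, eval_X, eval_C]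
  constructor
  · intro s hs
    simp only [hev]
    exact sum_eval x (fun k => y k ^ s) (fun r => hI r s (by omega)) _
  · have h := sum_eval x x (fun r => by
      have := hI (r + 1) 0 (by omega)
      simpa [pow_succ] using this) (∏ t ∈ T, (X - C (x t)))
    simp only [hev]
    calc _ = ∑ k, (∏ t ∈ T, (X - C (x t)) : Polynomial D).eval (x k) * x k :=
          sum_congr rfl fun k _ => mul_comm _ _
      _ = 0 := h

end Pool.Agent.Helper15.HU
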